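import Pool.Agent.Q148.Congr.Label

set_option autoImplicit false

/-!
The abstract solution: generators `g i` in ping-pong position, one of which (`none`) has no
periodic points.
-/

namespace Pool.Agent.Q148.Congr

open Set Function

universe u v w

section

variable {X : Type u} {I : Type v} {κ : Type w}

/-- Ping-pong data. -/
structure PP (X : Type u) (ι : Type w) where
  g : ι → Equiv.Perm X
  Dp : ι → Set X
  Dm : ι → Set X
  hpp : ∀ i z, z ∉ Dm i ↔ g i z ∈ Dp i
  dpp : ∀ i j z, z ∈ Dp i → z ∈ Dp j → i = j
  dmm : ∀ i j z, z ∈ Dm i → z ∈ Dm j → i = j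
  dpm : ∀ i j z, z ∈ Dp i → z ∉ Dm j

variable (P : PP X (Option κ)) (N : κ → Set I)

open Classical in
/-- The state of a point: in which ping-pong set it lies. -/
noncomputable def st (z : X) : Option (Bool × Option κ) :=
  if h : ∃ i, z ∈ P.Dp i then some (true, h.choose)
  else if h : ∃ i, z ∈ P.Dm i then some (false, h.choose) else none

theorem st_p {z : X} {i : Option κ} (hz : z ∈ P.Dp i) : st P z = some (true, i) := by
  have h : ∃ i, z ∈ P.Dp i := ⟨i, hz⟩
  unfold st
  rw [dif_pos h, P.dpp _ _ z h.choose_spec hz]

theorem st_m {z : X} {i : Option κ} (hz : z ∈ P.Dm i) : st P z = some (false, i) := by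
  have h : ∃ i, z ∈ P.Dm i := ⟨i, hz⟩
  have h' : ¬ ∃ i, z ∈ P.Dp i := fun ⟨j, hj⟩ => P.dpm j i z hj hz
  unfold st
  rw [dif_neg h', dif_pos h, P.dmm _ _ z h.choose_spec hz]

theorem mem_of_st_p {z : X} {i : Option κ} (h : st P z = some (true, i)) : z ∈ P.Dp i := by
  classical
  by_cases h1 : ∃ i, z ∈ P.Dp i
  · obtain ⟨j, hj⟩ := h1
    rw [st_p P hj] at h
    simp only [Option.some.injEq, Prod.mk.injEq, true_and] at h
    rwa [← h]
  · by_cases h2 : ∃ i, z ∈ P.Dm i
    · obtain ⟨j, hj⟩ := h2
      rw [st_m P hj] at h
      simp at h
    · unfold st at h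
      rw [dif_neg h1, dif_neg h2] at h
      simp at h

theorem mem_of_st_m {z : X} {i : Option κ} (h : st P z = some (false, i)) : z ∈ P.Dm i := by
  classical
  by_cases h1 : ∃ i, z ∈ P.Dp i
  · obtain ⟨j, hj⟩ := h1
    rw [st_p P hj] at h
    simp at h
  · by_cases h2 : ∃ i, z ∈ P.Dm i
    · obtain ⟨j, hj⟩ := h2
      rw [st_m P hj] at h
      simp only [Option.some.injEq, Prod.mk.injEq, true_and] at h
      rwa [← h]
    · unfold st at h
      rw [dif_neg h1, dif_neg h2] at h
      simp at h

/-- The parent map. -/
noncomputable def par (z : X) : X :=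
  match st P z with
  | some (true, i) => (P.g i).symm z
  | some (false, i) => P.g i z
  | none => z

open Classical in
/-- The outgoing bit at `z`. -/
noncomputable def ob (z : X) (l : Bool × I) : Bool :=
  match st P z with
  | some (true, some k) => decide (l.2 ∈ N k)
  | some (true, none) => l.1
  | some (false, _) => l.1
  | none => true

open Classical in
/-- The incoming bit of the constraint between `z` and its parent. -/
noncomputable def ib (z : X) (l : Bool × I) : Bool :=
  match st P z with
  | some (true, some _) => l.1
  | some (true, none) => !l.1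
  | some (false, some k) => decide (l.2 ∈ N k)
  | some (false, none) => !l.1
  | none => true

/-- Two bits on the labels are nearly independent. -/
def NI (a b : Bool × I → Bool) : Prop :=
  ∃ c : Bool × Bool, ∀ e : Bool × Bool, e ≠ c → ∃ l, (a l, b l) = e

variable {N}

theorem ni_of_sets {j₀ : I} {A B : Set I} (hA : j₀ ∈ A) (hB : j₀ ∈ B) (hA' : A ≠ univ)
    (hB' : B ≠ univ) (hAB : A ≠ B) [DecidablePred (· ∈ A)] [DecidablePred (· ∈ B)] :
    NI (fun l : Bool × I => decide (l.2 ∈ A)) (fun l : Bool × I => decide (l.2 ∈ B)) := by
  obtain ⟨a, ha⟩ := (ne_univ_iff_exists_notMem A).1 hA'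
  obtain ⟨b, hb⟩ := (ne_univ_iff_exists_notMem B).1 hB'
  by_cases h1 : A ⊆ B
  · have h2 : ¬ B ⊆ A := fun h => hAB (Subset.antisymm h1 h)
    obtain ⟨c, hcB, hcA⟩ := not_subset.1 h2
    have hbA : b ∉ A := fun h => hb (h1 h)
    refine ⟨(true, false), ?_⟩
    rintro ⟨x, y⟩ hne
    cases x <;> cases y
    · exact ⟨(true, b), by simp [hbA, hb]⟩
    · exact ⟨(true, c), by simp [hcA, hcB]⟩
    · exact absurd rfl hne
    · exact ⟨(true, j₀), by simp [hA, hB]⟩
  · obtain ⟨c, hcA, hcB⟩ := not_subset.1 h1
    by_cases h2 : B ⊆ A
    · have haB : a ∉ B := fun h => ha (h2 h)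
      refine ⟨(false, true), ?_⟩
      rintro ⟨x, y⟩ hne
      cases x <;> cases y
      · exact ⟨(true, a), by simp [haB, ha]⟩
      · exact absurd rfl hne
      · exact ⟨(true, c), by simp [hcA, hcB]⟩
      · exact ⟨(true, j₀), by simp [hA, hB]⟩
    · obtain ⟨d, hdB, hdA⟩ := not_subset.1 h2
      refine ⟨(false, false), ?_⟩
      rintro ⟨x, y⟩ hne
      cases x <;> cases y
      · exact absurd rfl hne
      · exact ⟨(true, d), by simp [hdA, hdB]⟩
      · exact ⟨(true, c), by simp [hcA, hcB]⟩
      · exact ⟨(true, j₀), by simp [hA, hB]⟩

theorem ni_of_set_bit {j₀ : I} {A : Set I} (hA : j₀ ∈ A) (hA' : A ≠ univ)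
    [DecidablePred (· ∈ A)] :
    NI (fun l : Bool × I => decide (l.2 ∈ A)) (fun l : Bool × I => l.1) ∧
    NI (fun l : Bool × I => l.1) (fun l : Bool × I => decide (l.2 ∈ A)) ∧
    NI (fun l : Bool × I => !l.1) (fun l : Bool × I => decide (l.2 ∈ A)) := by
  obtain ⟨a, ha⟩ := (ne_univ_iff_exists_notMem A).1 hA'
  refine ⟨⟨(true, true), ?_⟩, ⟨(true, true), ?_⟩, ⟨(true, true), ?_⟩⟩
  all_goals
    rintro ⟨x, y⟩ -
    cases x <;> cases y
  · exact ⟨(false, a), by simp [ha]⟩
  · exact ⟨(true, a), by simp [ha]⟩
  · exact ⟨(false, j₀), by simp [hA]⟩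
  · exact ⟨(true, j₀), by simp [hA]⟩
  · exact ⟨(false, a), by simp [ha]⟩
  · exact ⟨(false, j₀), by simp [hA]⟩
  · exact ⟨(true, a), by simp [ha]⟩
  · exact ⟨(true, j₀), by simp [hA]⟩
  · exact ⟨(true, a), by simp [ha]⟩
  · exact ⟨(true, j₀), by simp [hA]⟩
  · exact ⟨(false, a), by simp [ha]⟩
  · exact ⟨(false, j₀), by simp [hA]⟩

/-- The main abstract theorem. -/
theorem exists_solution (j₀ : I) (h0 : ∀ k, j₀ ∈ N k) (h1 : ∀ k, N k ≠ univ)
    (hinj : Function.Injective N)
    (hfix : ∀ (n : ℕ) (z : X), 0 < n → (P.g none)^[n] z ≠ z) :
    ∃ (E : Set X) (j : X → I), (∀ z, P.g none z ∈ E ↔ z ∉ E) ∧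
      ∀ (k : κ) (z : X), j (P.g (some k) z) ∈ N k ↔ z ∈ E := by
  classical
  have hex : ∀ k, ∃ a, a ∉ N k := fun k => (ne_univ_iff_exists_notMem _).1 (h1 k)
  have hT : ∀ x m, ∃ l, ob P N x l = ib P N x m := by
    intro x m
    have hsurj : ∀ b : Bool, (st P x = none → b = true) → ∃ l, ob P N x l = b := by
      intro b hb
      unfold ob
      rcases hst : st P x with _ | ⟨s, i⟩
      · exact ⟨(true, j₀), by simp [hb hst]⟩
      · rcases s with _ | _
        · exact ⟨(b, j₀), rfl⟩
        · rcases i with _ | k
          · exact ⟨(b, j₀), rfl⟩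
          · obtain ⟨a, ha⟩ := hex k
            cases b
            · exact ⟨(true, a), by simp [ha]⟩
            · exact ⟨(true, j₀), by simp [h0 k]⟩
    refine hsurj _ fun h => ?_
    unfold ib
    rw [h]
  have hS : ∀ x l, ∃ m, ob P N x l = ib P N x m := by
    intro x l
    have hsurj : ∀ b : Bool, (st P x = none → b = true) → ∃ l, ib P N x l = b := by
      intro b hb
      unfold ib
      rcases hst : st P x with _ | ⟨s, i⟩
      · exact ⟨(true, j₀), by simp [hb hst]⟩
      · rcases s with _ | _
        · rcases i with _ | k
          · exact ⟨(!b, j₀), by simp⟩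
          · obtain ⟨a, ha⟩ := hex k
            cases b
            · exact ⟨(true, a), by simp [ha]⟩
            · exact ⟨(true, j₀), by simp [h0 k]⟩
        · rcases i with _ | k
          · exact ⟨(!b, j₀), by simp⟩
          · exact ⟨(b, j₀), rfl⟩
    obtain ⟨m, hm⟩ := hsurj (ob P N x l) fun h => by
      unfold ob
      rw [h]
    exact ⟨m, hm.symm⟩
  have : Nonempty (Bool × I) := ⟨(true, j₀)⟩
  -- the values of `par`
  have par_p : ∀ z i, z ∈ P.Dp i → par P z = (P.g i).symm z := by
    intro z i hz
    unfold par
    rw [st_p P hz]
  have par_m : ∀ z i, z ∈ P.Dm i → par P z = P.g i z := by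
    intro z i hz
    unfold par
    rw [st_m P hz]
  have par_r : ∀ z, st P z = none → par P z = z := by
    intro z hz
    unfold par
    rw [hz]
  have hC : ∀ (x : X) (n : ℕ), 0 < n → (par P)^[n] x = x →
      ∃ (m : ℕ) (l : ℕ → Bool × I),
      (∀ k, ob P N ((par P)^[k] ((par P)^[m] x)) (l k) =
        ib P N ((par P)^[k] ((par P)^[m] x)) (l (k + 1))) ∧
      ∀ i j, (par P)^[i] ((par P)^[m] x) = (par P)^[j] ((par P)^[m] x) → l i = l j := by
    intro x n hn hx
    by_contra hcon
    -- all points of the cycle are periodic
    have hpern : ∀ m, (par P)^[n] ((par P)^[m] x) = (par P)^[m] x := by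
      intro m
      rw [← iterate_add_apply, add_comm, iterate_add_apply, hx]
    have hper : ∀ m, (par P)^[m] x ∈ periodicPts (par P) := fun m => ⟨n, hn, hpern m⟩
    -- no root
    have hroot : ∀ m, st P ((par P)^[m] x) ≠ none := by
      intro m hm
      apply hcon
      have hfixp : par P ((par P)^[m] x) = (par P)^[m] x := par_r _ hm
      have hit : ∀ k, (par P)^[k] ((par P)^[m] x) = (par P)^[m] x := by
        intro k
        exact (IsFixedPt.iterate (f := par P) hfixp k)
      refine ⟨m, fun _ => (true, j₀), fun k => ?_, fun _ _ _ => rfl⟩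
      rw [hit]
      unfold ob ib
      rw [hm]
    -- no good pair
    have hbad : ∀ m, ¬ NI (ib P N ((par P)^[m] x)) (ob P N ((par P)^[m + 1] x)) := by
      intro m hm
      apply hcon
      refine ⟨m + 1, ?_⟩
      refine exists_cycle_labels (par P) (ob P N) (ib P N) hS _ (hper (m + 1)) ?_
      have hpred : (par P)^[minimalPeriod (par P) ((par P)^[m + 1] x) - 1] ((par P)^[m + 1] x) =
          (par P)^[m] x := by
        have hd0 : 0 < minimalPeriod (par P) ((par P)^[m + 1] x) :=
          minimalPeriod_pos_of_mem_periodicPts (hper _)
        -- the minimal period of `x_{m+1}` is that of `x_m`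
        have hinjq : ∀ a b, par P ((par P)^[a] x) = par P ((par P)^[b] x) →
            (par P)^[a] x = (par P)^[b] x := by
          intro a b hab
          have h3 : (par P)^[n] ((par P)^[a] x) = (par P)^[n] ((par P)^[b] x) := by
            obtain ⟨n', rfl⟩ := Nat.exists_eq_succ_of_ne_zero hn.ne'
            rw [iterate_succ_apply, iterate_succ_apply, hab]
          rw [hpern, hpern] at h3
          exact h3
        have h4 : (par P)^[minimalPeriod (par P) ((par P)^[m + 1] x)] ((par P)^[m + 1] x) =
            (par P)^[m + 1] x := iterate_minimalPeriod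
        obtain ⟨d', hd'⟩ := Nat.exists_eq_succ_of_ne_zero hd0.ne'
        rw [hd', Nat.succ_sub_one]
        rw [hd', Nat.succ_eq_add_one, iterate_succ_apply', ← iterate_add_apply,
          iterate_succ_apply' (par P) m] at h4
        have h5 := hinjq _ _ h4
        rw [← h5, ← iterate_add_apply]
      rw [hpred]
      exact hm
    -- all states are of type `none`
    have hstep : ∀ m, (st P ((par P)^[m] x) = some (true, none) ∨
        st P ((par P)^[m] x) = some (false, none)) := by
      -- first: no `(true, some k)` at successors
      have ha : ∀ m k, st P ((par P)^[m + 1] x) ≠ some (true, some k) := by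
        intro m k hk
        have hnb := hbad m
        apply hnb
        have hob : ob P N ((par P)^[m + 1] x) = fun l : Bool × I => decide (l.2 ∈ N k) := by
          funext l
          unfold ob
          rw [hk]
        rw [hob]
        rcases hst : st P ((par P)^[m] x) with _ | ⟨s, i⟩
        · exact absurd hst (hroot m)
        · rcases i with _ | k'
          · have hib : ib P N ((par P)^[m] x) = fun l : Bool × I => !l.1 := by
              funext l
              unfold ib
              rw [hst]
              cases s <;> rfl
            rw [hib]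
            exact (ni_of_set_bit (h0 k) (h1 k)).2.2
          · rcases s with _ | _
            · have hib : ib P N ((par P)^[m] x) = fun l : Bool × I => decide (l.2 ∈ N k') := by
                funext l
                unfold ib
                rw [hst]
              rw [hib]
              have hkk : k' ≠ k := by
                rintro rfl
                have h6 := mem_of_st_m P hst
                have h7 := mem_of_st_p P hk
                rw [iterate_succ_apply', par_m _ _ h6] at h7
                exact (P.hpp _ _).2 h7 h6
              exact ni_of_sets (h0 k') (h0 k) (h1 k') (h1 k) (fun h => hkk (hinj h))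
            · have hib : ib P N ((par P)^[m] x) = fun l : Bool × I => l.1 := by
                funext l
                unfold ib
                rw [hst]
              rw [hib]
              exact (ni_of_set_bit (h0 k) (h1 k)).2.1
      have ha' : ∀ m k, st P ((par P)^[m] x) ≠ some (true, some k) := by
        intro m k
        rcases m with _ | m
        · obtain ⟨n', rfl⟩ := Nat.exists_eq_succ_of_ne_zero hn.ne'
          have := ha n' k
          rw [Nat.succ_eq_add_one] at hx
          rw [hx] at this
          exact this
        · exact ha m k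
      have hb : ∀ m k, st P ((par P)^[m] x) ≠ some (false, some k) := by
        intro m k hk
        apply hbad m
        have hib : ib P N ((par P)^[m] x) = fun l : Bool × I => decide (l.2 ∈ N k) := by
          funext l
          unfold ib
          rw [hk]
        have hob : ob P N ((par P)^[m + 1] x) = fun l : Bool × I => l.1 := by
          funext l
          unfold ob
          rcases hst : st P ((par P)^[m + 1] x) with _ | ⟨s, i⟩
          · exact absurd hst (hroot _)
          · rcases s with _ | _
            · rfl
            · rcases i with _ | k'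
              · rfl
              · exact absurd hst (ha' _ _)
        rw [hib, hob]
        exact (ni_of_set_bit (h0 k) (h1 k)).1
      intro m
      rcases hst : st P ((par P)^[m] x) with _ | ⟨s, i⟩
      · exact absurd hst (hroot m)
      · rcases i with _ | k
        · rcases s with _ | _
          · right; rfl
          · left; rfl
        · rcases s with _ | _
          · exact absurd hst (hb m k)
          · exact absurd hst (ha' m k)
    rcases hstep 0 with h | h
    · -- the inverse of `g none` is iterated
      have hall : ∀ m, st P ((par P)^[m] x) = some (true, none) ∧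
          (P.g none)^[m] ((par P)^[m] x) = x := by
        intro m
        induction m with
        | zero => exact ⟨h, rfl⟩
        | succ m ih =>
          have hmem := mem_of_st_p P ih.1
          have hpar := par_p _ _ hmem
          constructor
          · rcases hstep (m + 1) with h' | h'
            · exact h'
            · exfalso
              have h8 := mem_of_st_m P h'
              rw [iterate_succ_apply', hpar] at h8
              refine (P.hpp none ((P.g none).symm ((par P)^[m] x))).2 ?_ h8
              rw [Equiv.apply_symm_apply]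
              exact hmem
          · rw [iterate_succ_apply' (par P), hpar, iterate_succ_apply, Equiv.apply_symm_apply]
            exact ih.2
      have h9 := (hall n).2
      rw [hx] at h9
      exact hfix n x hn h9
    · have hall : ∀ m, st P ((par P)^[m] x) = some (false, none) ∧
          (P.g none)^[m] x = (par P)^[m] x := by
        intro m
        induction m with
        | zero => exact ⟨h, rfl⟩
        | succ m ih =>
          have hmem := mem_of_st_m P ih.1
          have hpar := par_m _ _ hmem
          constructor
          · rcases hstep (m + 1) with h' | h'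
            · exfalso
              have h8 := mem_of_st_p P h'
              rw [iterate_succ_apply', hpar] at h8
              exact (P.hpp none _).2 h8 hmem
            · exact h'
          · rw [iterate_succ_apply' (par P), hpar, iterate_succ_apply', ih.2]
      have h9 := (hall n).2
      rw [hx] at h9
      exact hfix n x hn h9
  obtain ⟨t, ht⟩ := exists_labeling (par P) (fun x l m => ob P N x l = ib P N x m) hT hS hC
  refine ⟨{z | (t z).1 = true}, fun z => (t z).2, fun z => ?_, fun k z => ?_⟩
  · show (t (P.g none z)).1 = true ↔ ¬ (t z).1 = true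
    by_cases hz : z ∈ P.Dm none
    · have h2 := ht z
      rw [par_m _ _ hz] at h2
      unfold ob ib at h2
      rw [st_m P hz] at h2
      simp only at h2
      rw [h2]
      simp
    · have hz' := (P.hpp _ _).1 hz
      have h2 := ht (P.g none z)
      rw [par_p _ _ hz', Equiv.symm_apply_apply] at h2
      unfold ob ib at h2
      rw [st_p P hz'] at h2
      simp only at h2
      rw [h2]
      simp
  · show (t (P.g (some k) z)).2 ∈ N k ↔ (t z).1 = true
    by_cases hz : z ∈ P.Dm (some k)
    · have h2 := ht z
      rw [par_m _ _ hz] at h2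
      unfold ob ib at h2
      rw [st_m P hz] at h2
      simp only at h2
      rw [h2]
      simp
    · have hz' := (P.hpp _ _).1 hz
      have h2 := ht (P.g (some k) z)
      rw [par_p _ _ hz', Equiv.symm_apply_apply] at h2
      unfold ob ib at h2
      rw [st_p P hz'] at h2
      simp only at h2
      rw [← h2]
      simp

end

end Pool.Agent.Q148.Congr
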