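import Pool.Agent.Q148.Congr.Abstract

set_option autoImplicit false

/-!
Continuum many isometries of the hyperbolic plane in ping-pong position (with respect to a
valuation of the field of complex numbers), one of which has no periodic points.
The first two lemmas are as in the starting file `Results/MP_7baebc_gt/ParabolicHalf.lean`.
-/

namespace Pool.Agent.Q148.Congr

open Cardinal Function
open scoped UpperHalfPlane MatrixGroups

/-- A real subfield of continuum cardinality over which some real number is transcendental. -/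
theorem exists_big_subfield :
    ∃ (k : Subfield ℝ) (c : ℝ), #k = Cardinal.continuum ∧ Transcendental k c := by
  obtain ⟨s, hs⟩ := exists_isTranscendenceBasis ℚ ℝ
  have halg : Algebra.IsAlgebraic (IntermediateField.adjoin ℚ (Set.range ((↑) : s → ℝ))) ℝ :=
    hs.isAlgebraic_field
  rw [Subtype.range_coe] at halg
  have h1 : #ℝ ≤ max #(IntermediateField.adjoin ℚ s) ℵ₀ :=
    Algebra.IsAlgebraic.cardinalMk_le_max _ _
  have h2 : #(IntermediateField.adjoin ℚ s) ≤ #ℚ ⊔ #s ⊔ ℵ₀ :=
    IntermediateField.cardinalMk_adjoin_le ℚ s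
  have h3 : #s = Cardinal.continuum := by
    apply le_antisymm
    · rw [← Cardinal.mk_real]; exact Cardinal.mk_set_le s
    · have h4 : #ℝ ≤ max #s ℵ₀ := by
        refine h1.trans ?_
        refine max_le (h2.trans ?_) (le_max_right _ _)
        exact sup_le (sup_le (Cardinal.mk_le_aleph0.trans (le_max_right _ _)) (le_max_left _ _))
          (le_max_right _ _)
      rw [Cardinal.mk_real] at h4
      rcases le_max_iff.1 h4 with h | h
      · exact h
      · exact absurd h (not_le.2 Cardinal.aleph0_lt_continuum)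
  have hne : s.Nonempty := by
    rw [← Set.nonempty_coe_sort, ← Cardinal.mk_ne_zero_iff, h3]
    exact Cardinal.continuum_ne_zero
  obtain ⟨c, hc⟩ := hne
  set k := IntermediateField.adjoin ℚ (s \ {c}) with hk
  refine ⟨k.toSubfield, c, ?_, ?_⟩
  · apply le_antisymm
    · rw [← Cardinal.mk_real]
      exact Cardinal.mk_set_le (k.toSubfield : Set ℝ)
    · have h5 : #(s \ {c} : Set ℝ) = Cardinal.continuum := by
        have h6 : #s ≤ #(s \ {c} : Set ℝ) + #({c} : Set ℝ) := by
          have : s ⊆ (s \ {c}) ∪ {c} := by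
            intro x hx
            by_cases hxc : x = c
            · right; exact hxc
            · left; exact ⟨hx, hxc⟩
          exact (Cardinal.mk_le_mk_of_subset this).trans (Cardinal.mk_union_le _ _)
        rw [h3, Cardinal.mk_singleton] at h6
        apply le_antisymm
        · rw [← Cardinal.mk_real]; exact Cardinal.mk_set_le _
        · by_contra hlt
          rw [not_le] at hlt
          have : #(s \ {c} : Set ℝ) + 1 < Cardinal.continuum :=
            Cardinal.add_lt_of_lt Cardinal.aleph0_le_continuum hlt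
              (Cardinal.one_lt_aleph0.trans Cardinal.aleph0_lt_continuum)
          exact absurd h6 (not_le.2 this)
      rw [← h5]
      apply Cardinal.mk_le_mk_of_subset
      exact IntermediateField.subset_adjoin ℚ _
  · have h7 : Transcendental (Algebra.adjoin ℚ (((↑) : s → ℝ) '' {x : s | (x : ℝ) ≠ c})) c := by
      have := hs.1.transcendental_adjoin (s := {x : s | (x : ℝ) ≠ c}) (i := ⟨c, hc⟩) (by simp)
      exact this
    have h8 : ((↑) : s → ℝ) '' {x : s | (x : ℝ) ≠ c} = s \ {c} := by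
      ext x
      simp only [Set.mem_image, Set.mem_ofPred_eq, Subtype.exists, exists_and_left, exists_prop,
        exists_eq_right_right, Set.mem_sdiff, Set.mem_singleton_iff]
      tauto
    rw [h8] at h7
    have h9 : Transcendental k c := IntermediateField.transcendental_adjoin_iff.2 h7
    exact h9

theorem exists_valuation :
    ∃ (k : Subfield ℝ) (c : ℝ) (V : ValuationSubring ℂ),
      #k = Cardinal.continuum ∧ (∀ t ∈ k, (t : ℂ) ∈ V) ∧ (c : ℂ) ∉ V := by
  obtain ⟨k, c, hk, hc⟩ := exists_big_subfield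
  have hcR : (c : ℂ) ∉ (integralClosure k ℂ).toSubring := by
    intro h
    have h1 : IsIntegral k (c : ℂ) := h
    have h2 : IsAlgebraic k (c : ℂ) := h1.isAlgebraic
    have h3 : IsAlgebraic k c := by
      rw [show (c : ℂ) = algebraMap ℝ ℂ c from rfl] at h2
      exact (isAlgebraic_algebraMap_iff (algebraMap ℝ ℂ).injective).1 h2
    exact hc h3
  obtain ⟨V, hV1, hV2⟩ := Subring.exists_le_valuationSubring_of_isIntegrallyClosedIn hcR
  refine ⟨k, c, V, hk, ?_, hV2⟩
  intro t ht
  apply hV1
  have : IsIntegral k (algebraMap k ℂ ⟨t, ht⟩) := isIntegral_algebraMap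
  exact this

/-- The matrix of `z ↦ b - e² / (z - a)`. -/
noncomputable def mat (a b e : ℝ) (he : e ≠ 0) : SL(2, ℝ) :=
  ⟨!![b / e, (-(a * b) - e ^ 2) / e; 1 / e, -a / e], by
    rw [Matrix.det_fin_two_of]
    field_simp
    ring⟩

/-- The isometry `z ↦ b - e² / (z - a)`. -/
noncomputable def iso (a b e : ℝ) (he : e ≠ 0) : ℍ ≃ᵢ ℍ := IsometryEquiv.constSMul (mat a b e he)

theorem coe_ne_real (z : ℍ) (a : ℝ) : (z : ℂ) - a ≠ 0 := by
  intro h
  have h1 : ((z : ℂ) - a).im = 0 := by rw [h]; simp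
  rw [Complex.sub_im, Complex.ofReal_im, sub_zero] at h1
  exact z.im_pos.ne' h1

theorem iso_apply (a b e : ℝ) (he : e ≠ 0) (z : ℍ) :
    ((iso a b e he z : ℍ) : ℂ) = b - e ^ 2 / ((z : ℂ) - a) := by
  have h0 := coe_ne_real z a
  have he' : (e : ℂ) ≠ 0 := by exact_mod_cast he
  change ((mat a b e he • z : ℍ) : ℂ) = _
  rw [UpperHalfPlane.coe_specialLinearGroup_apply]
  simp only [mat, Matrix.SpecialLinearGroup.coe_mk, Matrix.of_apply, Matrix.cons_val',
    Matrix.cons_val_zero, Matrix.cons_val_one, Matrix.cons_val_fin_one, Algebra.algebraMap_self,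
    RingHom.id_apply]
  push_cast
  have h1 : (1 / (e : ℂ) * z + -a / e) = ((z : ℂ) - a) / e := by ring
  rw [h1]
  field_simp
  ring

/-- An isometry of this form without periodic points. -/
theorem iso_no_periodic (a b e : ℝ) (he : e ≠ 0) (hab : 2 * |e| < |b - a|) (n : ℕ) (z : ℍ)
    (hn : 0 < n) : (iso a b e he)^[n] z ≠ z := by
  intro hz
  have hD : 0 < (b - a) ^ 2 / 4 - e ^ 2 := by
    have h1 : (2 * |e|) ^ 2 < |b - a| ^ 2 := by
      apply pow_lt_pow_left₀ hab (by positivity) (by norm_num)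
    rw [mul_pow, sq_abs, sq_abs] at h1
    linarith
  set r := Real.sqrt ((b - a) ^ 2 / 4 - e ^ 2) with hr
  have hr0 : 0 < r := Real.sqrt_pos.2 hD
  have hr2 : r ^ 2 = (b - a) ^ 2 / 4 - e ^ 2 := Real.sq_sqrt hD.le
  set p : ℝ := (a + b) / 2 - r with hp
  set q : ℝ := (a + b) / 2 + r with hq
  have hpe : e ^ 2 = (p - a) * (b - p) := by
    rw [hp]
    have : ((a + b) / 2 - r - a) * (b - ((a + b) / 2 - r)) = (b - a) ^ 2 / 4 - r ^ 2 := by ring
    rw [this, hr2]; ring
  have hqe : e ^ 2 = (q - a) * (b - q) := by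
    rw [hq]
    have : ((a + b) / 2 + r - a) * (b - ((a + b) / 2 + r)) = (b - a) ^ 2 / 4 - r ^ 2 := by ring
    rw [this, hr2]; ring
  have he2 : 0 < e ^ 2 := by positivity
  have hbp : b - p ≠ 0 := by
    intro h; rw [h, mul_zero] at hpe; exact he2.ne' hpe
  have hbq : b - q ≠ 0 := by
    intro h; rw [h, mul_zero] at hqe; exact he2.ne' hqe
  set lam : ℝ := (b - p) / (b - q) with hlam
  have hlpos : 0 < lam := by
    have h1 : (b - p) * (b - q) = e ^ 2 := by
      rw [hp, hq]
      have : (b - ((a + b) / 2 - r)) * (b - ((a + b) / 2 + r)) = (b - a) ^ 2 / 4 - r ^ 2 := by ring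
      rw [this, hr2]; ring
    rw [hlam, div_eq_mul_inv]
    have h2 : (b - p) * (b - q)⁻¹ = (b - p) * (b - q) * ((b - q)⁻¹) ^ 2 := by
      field_simp
    rw [h2, h1]
    positivity
  have hl1 : lam ≠ 1 := by
    intro h
    rw [hlam, div_eq_one_iff_eq hbq] at h
    have : p = q := by linarith
    rw [hp, hq] at this
    linarith
  let F : ℍ → ℂ := fun w => ((w : ℂ) - p) / ((w : ℂ) - q)
  have hF : ∀ w : ℍ, F (iso a b e he w) = lam * F w := by
    intro w
    have hwa := coe_ne_real w a
    have hwq := coe_ne_real w q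
    have hbqC : (b : ℂ) - q ≠ 0 := by exact_mod_cast hbq
    have h1 : (b : ℂ) - e ^ 2 / ((w : ℂ) - a) - p = (b - p) * ((w : ℂ) - p) / ((w : ℂ) - a) := by
      have hpe' : (e : ℂ) ^ 2 = ((p : ℂ) - a) * (b - p) := by
        rw [← Complex.ofReal_pow, hpe]; push_cast; ring
      rw [hpe']
      field_simp
      ring
    have h2 : (b : ℂ) - e ^ 2 / ((w : ℂ) - a) - q = (b - q) * ((w : ℂ) - q) / ((w : ℂ) - a) := by
      have hqe' : (e : ℂ) ^ 2 = ((q : ℂ) - a) * (b - q) := by
        rw [← Complex.ofReal_pow, hqe]; push_cast; ring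
      rw [hqe']
      field_simp
      ring
    simp only [F]
    rw [iso_apply, h1, h2, hlam]
    push_cast
    field_simp
  have hFn : ∀ m : ℕ, F ((iso a b e he)^[m] z) = lam ^ m * F z := by
    intro m
    induction m with
    | zero => simp
    | succ m ih => rw [iterate_succ_apply', hF, ih, pow_succ]; ring
  have h1 := hFn n
  rw [hz] at h1
  have hFz : F z ≠ 0 := div_ne_zero (coe_ne_real z p) (coe_ne_real z q)
  have h2 : ((lam ^ n : ℝ) : ℂ) = 1 := by
    have : (lam : ℂ) ^ n * F z = 1 * F z := by rw [one_mul]; exact h1.symm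
    have := mul_right_cancel₀ hFz this
    push_cast
    exact this
  have h3 : lam ^ n = 1 := by exact_mod_cast h2
  exact hl1 ((pow_eq_one_iff_of_nonneg hlpos.le hn.ne').1 h3)

/-- Ping-pong data of isometries of the hyperbolic plane indexed by a set of cardinality at most
continuum, one of which has no periodic points. -/
theorem exists_pingpong (κ : Type) (hκ : #κ ≤ Cardinal.continuum) :
    ∃ (P : PP ℍ (Option κ)) (f : Option κ → (ℍ ≃ᵢ ℍ)), (∀ i z, P.g i z = f i z) ∧
      ∀ (n : ℕ) (z : ℍ), 0 < n → (P.g none)^[n] z ≠ z := by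
  classical
  obtain ⟨k, c, V, hk, hkV, hcV⟩ := exists_valuation
  have hcard : #(Option κ × Bool) ≤ #k := by
    rw [hk, mk_prod, lift_id, lift_id, mk_option]
    have h1 : #κ + 1 ≤ Cardinal.continuum :=
      (add_le_add hκ one_lt_aleph0.le |>.trans (add_le_add le_rfl aleph0_le_continuum)).trans
        (add_eq_self aleph0_le_continuum).le
    refine (mul_le_mul' h1 (show #Bool ≤ Cardinal.continuum from ?_)).trans
      (mul_eq_self aleph0_le_continuum).le
    exact (mk_le_aleph0 (α := Bool)).trans aleph0_le_continuum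
  obtain ⟨φ⟩ := hcard
  let a : Option κ → ℝ := fun i => (φ (i, false) : ℝ)
  let b : Option κ → ℝ := fun i => (φ (i, true) : ℝ)
  have hak : ∀ i, a i ∈ k := fun i => (φ (i, false)).2
  have hbk : ∀ i, b i ∈ k := fun i => (φ (i, true)).2
  have haa : ∀ i j, a i = a j → i = j := by
    intro i j h
    have := φ.injective (Subtype.ext h)
    simpa using this
  have hbb : ∀ i j, b i = b j → i = j := by
    intro i j h
    have := φ.injective (Subtype.ext h)
    simpa using this
  have hba : ∀ i j, b i ≠ a j := by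
    intro i j h
    have := φ.injective (Subtype.ext h)
    simp at this
  -- the valuation
  let v := V.valuation
  have hv1 : ∀ t ∈ k, t ≠ 0 → v (t : ℂ) = 1 := by
    intro t ht h0
    have h1 : v (t : ℂ) ≤ 1 := (V.valuation_le_one_iff _).2 (hkV t ht)
    have h2 : v ((t⁻¹ : ℝ) : ℂ) ≤ 1 := (V.valuation_le_one_iff _).2 (hkV _ (k.inv_mem ht))
    have h0' : (t : ℂ) ≠ 0 := by exact_mod_cast h0
    have h3 : v (t : ℂ) * v ((t⁻¹ : ℝ) : ℂ) = 1 := by
      rw [← map_mul]
      push_cast
      rw [mul_inv_cancel₀ h0', map_one]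
    apply le_antisymm h1
    calc (1 : _) = v (t : ℂ) * v ((t⁻¹ : ℝ) : ℂ) := h3.symm
      _ ≤ v (t : ℂ) * 1 := mul_le_mul' le_rfl h2
      _ = v (t : ℂ) := mul_one _
  have hc0 : c ≠ 0 := by
    rintro rfl
    apply hcV
    rw [Complex.ofReal_zero]
    exact zero_mem V
  have hvc : 1 < v (c : ℂ) := by
    rw [← not_le]
    exact fun h => hcV ((V.valuation_le_one_iff _).1 h)
  have hd : 0 < |b none - a none| := abs_pos.2 (sub_ne_zero.2 (hba none none))
  obtain ⟨m, hm⟩ := exists_nat_gt (2 / (|c| * |b none - a none|))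
  have hc0' : 0 < |c| := abs_pos.2 hc0
  have hm0 : 0 < (m : ℝ) := lt_trans (by positivity) hm
  set e : ℝ := 1 / (m * c) with he
  have he0 : e ≠ 0 := by
    rw [he]
    have : (m : ℝ) * c ≠ 0 := mul_ne_zero hm0.ne' hc0
    exact one_div_ne_zero this
  have hve : v (e : ℂ) < 1 := by
    have h1 : v ((m : ℝ) : ℂ) = 1 := hv1 m (natCast_mem k m) hm0.ne'
    have h2 : v (e : ℂ) * v (c : ℂ) = 1 := by
      have h3 : (e : ℂ) * c * (m : ℝ) = 1 := by
        have : e * c * m = 1 := by
          rw [he]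
          field_simp
        exact_mod_cast congrArg (fun x : ℝ => (x : ℂ)) this
      have h4 := congrArg v h3
      rw [map_mul, map_mul, map_one, h1, mul_one] at h4
      exact h4
    by_contra hcon
    push Not at hcon
    have : 1 < v (e : ℂ) * v (c : ℂ) := by
      calc (1 : _) < v (c : ℂ) := hvc
        _ = 1 * v (c : ℂ) := (one_mul _).symm
        _ ≤ v (e : ℂ) * v (c : ℂ) := mul_le_mul' hcon le_rfl
    rw [h2] at this
    exact lt_irrefl _ this
  have hve0 : v (e : ℂ) ≠ 0 := by
    rw [Valuation.ne_zero_iff]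
    exact_mod_cast he0
  have hbound : 2 * |e| < |b none - a none| := by
    rw [he, abs_div, abs_mul, abs_one, abs_of_pos hm0]
    rw [div_lt_iff₀ (by positivity)] at hm
    rw [mul_one_div, div_lt_iff₀ (by positivity)]
    calc 2 < (m : ℝ) * (|c| * |b none - a none|) := hm
      _ = _ := by ring
  -- separation
  have hsep : ∀ s ∈ k, ∀ t ∈ k, s ≠ t → ∀ z : ℂ, v (z - s) ≤ v (e : ℂ) → v (z - t) ≤ v (e : ℂ) →
      False := by
    intro s hs t ht hst z h1 h2
    have h3 : v (((s - t : ℝ)) : ℂ) = 1 := hv1 _ (k.sub_mem hs ht) (sub_ne_zero.2 hst)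
    have h4 : (((s - t : ℝ)) : ℂ) = (z - t) - (z - s) := by push_cast; ring
    have h5 : v ((z - t) - (z - s)) ≤ v (e : ℂ) :=
      (v.map_sub _ _).trans (max_le h2 h1)
    rw [← h4, h3] at h5
    exact absurd hve (not_lt.2 h5)
  let f : Option κ → (ℍ ≃ᵢ ℍ) := fun i => iso (a i) (b i) e he0
  have hf : ∀ i (z : ℍ), v (((f i z : ℍ) : ℂ) - b i) * v ((z : ℂ) - a i) =
      v (e : ℂ) * v (e : ℂ) := by
    intro i z
    have h0 := coe_ne_real z (a i)
    rw [iso_apply, ← map_mul, ← map_mul]
    have : ((b i : ℂ) - (e : ℂ) ^ 2 / ((z : ℂ) - a i) - b i) * ((z : ℂ) - a i) = - ((e : ℂ) * e) := by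
      field_simp
      ring
    rw [this, Valuation.map_neg]
  have hva0 : ∀ (z : ℍ) (t : ℝ), v ((z : ℂ) - t) ≠ 0 := by
    intro z t
    rw [Valuation.ne_zero_iff]
    exact coe_ne_real z t
  refine ⟨⟨fun i => (f i).toEquiv, fun i => {z | v ((z : ℂ) - b i) ≤ v (e : ℂ)},
    fun i => {z | v ((z : ℂ) - a i) < v (e : ℂ)}, ?_, ?_, ?_, ?_⟩, f, fun _ _ => rfl, ?_⟩
  · intro i z
    show ¬ (v ((z : ℂ) - a i) < v (e : ℂ)) ↔ v (((f i z : ℍ) : ℂ) - b i) ≤ v (e : ℂ)
    rw [not_lt]
    have h1 := hf i z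
    constructor
    · intro h
      by_contra hcon
      push Not at hcon
      have : v (e : ℂ) * v (e : ℂ) < v (((f i z : ℍ) : ℂ) - b i) * v ((z : ℂ) - a i) := by
        calc v (e : ℂ) * v (e : ℂ) ≤ v (e : ℂ) * v ((z : ℂ) - a i) := mul_le_mul' le_rfl h
          _ < v (((f i z : ℍ) : ℂ) - b i) * v ((z : ℂ) - a i) :=
            mul_lt_mul_of_pos_right hcon (zero_lt_iff.2 (hva0 z _))
      rw [h1] at this
      exact lt_irrefl _ this
    · intro h
      by_contra hcon
      push Not at hcon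
      have : v (((f i z : ℍ) : ℂ) - b i) * v ((z : ℂ) - a i) < v (e : ℂ) * v (e : ℂ) := by
        calc v (((f i z : ℍ) : ℂ) - b i) * v ((z : ℂ) - a i)
            ≤ v (e : ℂ) * v ((z : ℂ) - a i) := mul_le_mul' h le_rfl
          _ < v (e : ℂ) * v (e : ℂ) := mul_lt_mul_of_pos_left hcon (zero_lt_iff.2 hve0)
      rw [h1] at this
      exact lt_irrefl _ this
  · intro i j z hi hj
    by_contra hij
    exact hsep _ (hbk i) _ (hbk j) (fun h => hij (hbb i j h)) _ hi hj
  · intro i j z hi hj
    by_contra hij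
    exact hsep _ (hak i) _ (hak j) (fun h => hij (haa i j h)) _ (le_of_lt hi) (le_of_lt hj)
  · intro i j z hi hj
    exact hsep _ (hbk i) _ (hak j) (hba i j) _ hi (le_of_lt hj)
  · intro n z hn
    exact iso_no_periodic (a none) (b none) e he0 hbound n z hn

end Pool.Agent.Q148.Congr
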