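import Mathlib

set_option autoImplicit false

/-!
Labellings of functional graphs: solving the constraints `R x (t x) (t (p x))`.
-/

namespace Pool.Agent.Q148.Congr

open Set Function

universe u v

/-- If the constraint `R x` between the label of `x` and the label of `p x` can be solved for each
of the two labels when the other one is given, and if on each periodic orbit the constraints can be
solved, then there is a global solution. -/
theorem exists_labeling {X : Type u} {Λ : Type v} [Nonempty Λ] (p : X → X) (R : X → Λ → Λ → Prop)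
    (hT : ∀ x m, ∃ l, R x l m) (hS : ∀ x l, ∃ m, R x l m)
    (hC : ∀ x n, 0 < n → p^[n] x = x → ∃ (m : ℕ) (l : ℕ → Λ),
      (∀ k, R (p^[k] (p^[m] x)) (l k) (l (k + 1))) ∧
      ∀ i j, p^[i] (p^[m] x) = p^[j] (p^[m] x) → l i = l j) :
    ∃ t : X → Λ, ∀ x, R x (t x) (t (p x)) := by
  classical
  let Good : Set (Set (X × Λ)) := {G | (∀ x a b, (x, a) ∈ G → (x, b) ∈ G → a = b) ∧
    ∀ x a, (x, a) ∈ G → ∃ b, (p x, b) ∈ G ∧ R x a b}
  obtain ⟨G, hG⟩ := zorn_subset Good (by
    intro c hc hchain
    refine ⟨⋃₀ c, ⟨?_, ?_⟩, fun s hs => subset_sUnion_of_mem hs⟩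
    · rintro x a b ⟨s, hs, ha⟩ ⟨t, ht, hb⟩
      rcases hchain.total hs ht with h | h
      · exact (hc ht).1 x a b (h ha) hb
      · exact (hc hs).1 x a b ha (h hb)
    · rintro x a ⟨s, hs, ha⟩
      obtain ⟨b, hb, hR⟩ := (hc hs).2 x a ha
      exact ⟨b, ⟨s, hs, hb⟩, hR⟩)
  have hG1 := hG.prop.1
  have hG2 := hG.prop.2
  -- adding an orbit
  have key : ∀ (y : X) (l : ℕ → Λ), (∀ k a, (p^[k] y, a) ∉ G) →
      (∀ k, R (p^[k] y) (l k) (l (k + 1))) → (∀ i j, p^[i] y = p^[j] y → l i = l j) → False := by
    intro y l h1 h2 h3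
    let G' : Set (X × Λ) := G ∪ {q | ∃ k, q = (p^[k] y, l k)}
    have hG' : G' ∈ Good := by
      refine ⟨?_, ?_⟩
      · rintro x a b (ha | ⟨k, ha⟩) (hb | ⟨k', hb⟩)
        · exact hG1 x a b ha hb
        · rw [Prod.mk.injEq] at hb
          rw [hb.1] at ha
          exact absurd ha (h1 _ _)
        · rw [Prod.mk.injEq] at ha
          rw [ha.1] at hb
          exact absurd hb (h1 _ _)
        · rw [Prod.mk.injEq] at ha hb
          rw [ha.2, hb.2]
          exact h3 _ _ (ha.1.symm.trans hb.1)
      · rintro x a (ha | ⟨k, ha⟩)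
        · obtain ⟨b, hb, hR⟩ := hG2 x a ha
          exact ⟨b, Or.inl hb, hR⟩
        · rw [Prod.mk.injEq] at ha
          obtain ⟨rfl, rfl⟩ := ha
          refine ⟨l (k + 1), Or.inr ⟨k + 1, ?_⟩, h2 k⟩
          rw [iterate_succ_apply']
    have hle : G' ⊆ G := hG.le_of_ge hG' subset_union_left
    exact h1 0 (l 0) (hle (Or.inr ⟨0, rfl⟩))
  -- the domain of `G` is everything
  have hdom : ∀ x, ∃ a, (x, a) ∈ G := by
    by_contra hcon
    push Not at hcon
    obtain ⟨x, hx⟩ := hcon
    by_cases hhit : ∃ k a, (p^[k] x, a) ∈ G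
    · -- extend by one point
      have hmin := Nat.find_spec hhit
      obtain ⟨a, ha⟩ := hmin
      have hk0 : Nat.find hhit ≠ 0 := by
        intro h0
        rw [h0] at ha
        exact hx a ha
      obtain ⟨k, hk⟩ := Nat.exists_eq_succ_of_ne_zero hk0
      have hnot : ∀ b, (p^[k] x, b) ∉ G := by
        intro b hb
        exact Nat.find_min hhit (m := k) (by omega) ⟨b, hb⟩
      rw [hk, Nat.succ_eq_add_one, iterate_succ_apply'] at ha
      obtain ⟨l, hl⟩ := hT (p^[k] x) a
      let G' : Set (X × Λ) := insert (p^[k] x, l) G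
      have hG' : G' ∈ Good := by
        refine ⟨?_, ?_⟩
        · rintro z b c (hb | hb) (hc | hc)
          · rw [Prod.mk.injEq] at hb hc
            rw [hb.2, hc.2]
          · rw [Prod.mk.injEq] at hb
            rw [hb.1] at hc
            exact absurd hc (hnot c)
          · rw [Prod.mk.injEq] at hc
            rw [hc.1] at hb
            exact absurd hb (hnot b)
          · exact hG1 z b c hb hc
        · rintro z b (hb | hb)
          · rw [Prod.mk.injEq] at hb
            obtain ⟨rfl, rfl⟩ := hb
            exact ⟨a, Or.inr ha, hl⟩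
          · obtain ⟨c, hc, hR⟩ := hG2 z b hb
            exact ⟨c, Or.inr hc, hR⟩
      have hle : G' ⊆ G := hG.le_of_ge hG' (subset_insert _ _)
      exact hnot l (hle (mem_insert _ _))
    · push Not at hhit
      by_cases hper : ∃ m n, m < n ∧ p^[m] x = p^[n] x
      · obtain ⟨m, n, hmn, h⟩ := hper
        have h' : p^[n - m] (p^[m] x) = p^[m] x := by
          rw [← iterate_add_apply, Nat.sub_add_cancel hmn.le, h]
        obtain ⟨m', l, h1, h2⟩ := hC (p^[m] x) (n - m) (by omega) h'
        refine key (p^[m'] (p^[m] x)) l ?_ h1 h2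
        intro k a
        rw [← iterate_add_apply, ← iterate_add_apply]
        exact hhit _ a
      · push Not at hper
        have hinj : ∀ i j, p^[i] x = p^[j] x → i = j := by
          intro i j hij
          rcases lt_trichotomy i j with h | h | h
          · exact absurd hij (hper i j h)
          · exact h
          · exact absurd hij.symm (hper j i h)
        choose f hf using hS
        let l : ℕ → Λ := fun n => Nat.rec (Classical.arbitrary Λ) (fun k a => f (p^[k] x) a) n
        refine key x l (fun k a => hhit k a) (fun k => hf _ _) ?_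
        intro i j hij
        rw [hinj i j hij]
  choose t ht using hdom
  refine ⟨t, fun x => ?_⟩
  obtain ⟨b, hb, hR⟩ := hG2 x (t x) (ht x)
  rwa [hG1 _ _ _ (ht (p x)) hb]

/-- On a periodic orbit, constraints of the form `o x (l x) = i x (l (p x))` can be solved if at
one point of the orbit the incoming and the outgoing bit are nearly independent. -/
theorem exists_cycle_labels {X : Type u} {Λ : Type v} (p : X → X) (o i : X → Λ → Bool)
    (hS : ∀ x l, ∃ m, o x l = i x m) (y : X) (hy : y ∈ periodicPts p)
    (hgood : ∃ c : Bool × Bool, ∀ e : Bool × Bool, e ≠ c → ∃ l,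
      (i (p^[minimalPeriod p y - 1] y) l, o y l) = e) :
    ∃ l : ℕ → Λ, (∀ k, o (p^[k] y) (l k) = i (p^[k] y) (l (k + 1))) ∧
      ∀ r s, p^[r] y = p^[s] y → l r = l s := by
  classical
  set d := minimalPeriod p y with hd
  have hd0 : 0 < d := minimalPeriod_pos_of_mem_periodicPts hy
  set w := p^[d - 1] y with hw
  obtain ⟨c, hc⟩ := hgood
  -- both values of the outgoing bit occur
  have hob : ∀ b : Bool, ∃ l, o y l = b := by
    intro b
    by_cases h : c = (true, b)
    · obtain ⟨l, hl⟩ := hc (false, b) (by rw [h]; simp)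
      exact ⟨l, by rw [Prod.mk.injEq] at hl; exact hl.2⟩
    · obtain ⟨l, hl⟩ := hc (true, b) (fun h' => h h'.symm)
      exact ⟨l, by rw [Prod.mk.injEq] at hl; exact hl.2⟩
  choose f hf using hS
  -- propagation
  have hprop : ∀ b : Bool, ∃ m : ℕ → Λ, o y (m 0) = b ∧
      ∀ k, o (p^[k] y) (m k) = i (p^[k] y) (m (k + 1)) := by
    intro b
    obtain ⟨l0, hl0⟩ := hob b
    exact ⟨fun n => Nat.rec l0 (fun k a => f (p^[k] y) a) n, hl0, fun k => hf _ _⟩
  choose m hm0 hm using hprop
  obtain ⟨b, l0, h1, h2⟩ : ∃ b l0, i w l0 = i w (m b d) ∧ o y l0 = b := by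
    by_cases h : (i w (m true d), true) = c
    · obtain ⟨l, hl⟩ := hc (i w (m false d), false) (by
        intro h'
        rw [← h'] at h
        simp at h)
      rw [Prod.mk.injEq] at hl
      exact ⟨false, l, hl.1, hl.2⟩
    · obtain ⟨l, hl⟩ := hc (i w (m true d), true) h
      rw [Prod.mk.injEq] at hl
      exact ⟨true, l, hl.1, hl.2⟩
  refine ⟨fun k => if k % d = 0 then l0 else m b (k % d), ?_, ?_⟩
  · intro k
    have hpk : p^[k] y = p^[k % d] y := by
      rw [hd, iterate_mod_minimalPeriod_eq]
    rw [hpk]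
    have hr : k % d < d := Nat.mod_lt _ hd0
    by_cases h0 : k % d = 0
    · have hk1 : (k + 1) % d = 1 % d := by
        rw [Nat.add_mod, h0, zero_add, Nat.mod_mod]
      simp only [h0, if_true, iterate_zero, id, hk1]
      rcases Nat.lt_or_ge 1 d with h | h
      · rw [Nat.mod_eq_of_lt h, if_neg (by norm_num), h2]
        have h5 : o y (m b 0) = i y (m b 1) := hm b 0
        rw [hm0] at h5
        exact h5
      · have hd1 : d = 1 := by omega
        have hwy : w = y := by rw [hw, hd1]; rfl
        rw [hd1]
        simp only [Nat.mod_self, if_true]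
        rw [hwy, hd1] at h1
        rw [h1, h2]
        have h5 : o y (m b 0) = i y (m b 1) := hm b 0
        rw [hm0] at h5
        exact h5
    · rcases Nat.lt_or_ge (k % d + 1) d with h | h
      · have hk1 : (k + 1) % d = k % d + 1 := by
          rw [Nat.add_mod, Nat.mod_eq_of_lt (show 1 < d by omega)]
          exact Nat.mod_eq_of_lt h
        simp only [h0, if_false, hk1]
        rw [if_neg (by omega)]
        exact hm b (k % d)
      · have hkd : k % d + 1 = d := by omega
        have hk1 : (k + 1) % d = 0 := by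
          rw [Nat.add_mod]
          rcases Nat.lt_or_ge 1 d with h' | h'
          · rw [Nat.mod_eq_of_lt h', hkd, Nat.mod_self]
          · have : d = 1 := by omega
            rw [this, Nat.mod_one]
        simp only [h0, if_false, hk1, if_true]
        have hwk : p^[k % d] y = w := by rw [hw]; congr 1; omega
        rw [hwk, h1, ← hwk]
        have := hm b (k % d)
        rw [hkd] at this
        exact this
  · intro r s hrs
    have : r % d = s % d := by
      have h3 : p^[r % d] y = p^[s % d] y := by
        rw [hd, iterate_mod_minimalPeriod_eq, iterate_mod_minimalPeriod_eq]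
        exact hrs
      exact iterate_injOn_Iio_minimalPeriod (Nat.mod_lt _ hd0) (Nat.mod_lt _ hd0) h3
    simp only [this]

end Pool.Agent.Q148.Congr
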